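import Mathlib

/-!
# Variance-balanced designs with blocks of size three and no repeated blocks: statements

Project VB (MP_588841_co).
-/

set_option autoImplicit false

open Finset

namespace Pool.Agent.U645.VB

/-- A block with three places: a multiset of three points which are not all equal. -/
def IsBlock {v : ℕ} (B : Multiset (Fin v)) : Prop :=
  Multiset.card B = 3 ∧ ∃ a ∈ B, ∃ b ∈ B, a ≠ b

/-- `D` is (the set of the blocks of) a `VB(v,3,l)` design without repeated blocks: every two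
distinct points have the concurrence `l`. -/
def IsVB (v l : ℕ) (D : Finset (Multiset (Fin v))) : Prop :=
  (∀ B ∈ D, IsBlock B) ∧ ∀ i j : Fin v, i ≠ j → ∑ B ∈ D, B.count i * B.count j = l

/-- There is a set of triples of distinct points (the symmetric relation `t`) such that every pair of
points is in `l`, `l - 2` or `l - 4` of them. -/
def Sys (α : Type) [Fintype α] [DecidableEq α] (l : ℕ) : Prop :=
  ∃ t : α → α → α → Bool, (∀ x y z, t x y z = t y x z) ∧ (∀ x y z, t x y z = t x z y) ∧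
    (∀ x y, t x x y = false) ∧
    ∀ x y, x ≠ y → ∃ e : ℕ, e ≤ 2 ∧ (univ.filter (fun z => t x y z = true)).card + 2 * e = l

/-- There is a bipartite graph with `p` and `q` vertices in the two classes and all degrees in
`{l, l - 2, l - 4}`. -/
def Bip (p q l : ℕ) : Prop :=
  ∃ E : Fin p → Fin q → Bool,
    (∀ b, ∃ e : ℕ, e ≤ 2 ∧ (univ.filter (fun t => E b t = true)).card + 2 * e = l) ∧
    ∀ t, ∃ e : ℕ, e ≤ 2 ∧ (univ.filter (fun b => E b t = true)).card + 2 * e = l

/-- Package D: designs and sets of triples. -/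
def S_D : Prop := ∀ v l : ℕ, (∃ D : Finset (Multiset (Fin v)), IsVB v l D) ↔ Sys (Fin v) l

/-- Package K: Kirkman's theorem. -/
def S_K : Prop := ∀ v : ℕ, v % 6 = 1 ∨ v % 6 = 3 → Sys (Fin v) 1

/-- Package B: bipartite graphs. -/
def S_B : Prop :=
  (∀ q l : ℕ, 2 ≤ l → l ≤ q + 2 → Bip q q l) ∧
  (∀ q l : ℕ, 2 ≤ l → l ≤ q + 2 → Bip (q + 2) q l) ∧
  (∀ n l : ℕ, Even l → 2 ≤ l → l ≤ n + 2 → Bip (n + 1) n l)

/-- The result. -/
def S_R : Prop := ∀ v l : ℕ, 2 ≤ v → 1 ≤ l →
  ((∃ D : Finset (Multiset (Fin v)), IsVB v l D) ↔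
    l ≤ v + 2 ∧ Even (l * (v - 1)) ∧ (l = 1 ∨ l = v + 1 → v % 6 = 1 ∨ v % 6 = 3))

end Pool.Agent.U645.VB
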