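import Pool.Agent.U645.VB.Rec

/-!
# Variance-balanced designs: the induction and the necessary conditions
-/

set_option autoImplicit false

open Finset

namespace Pool.Agent.U645.VB

theorem Bip.symm {p q l : ℕ} (h : Bip p q l) : Bip q p l := by
  obtain ⟨E, h1, h2⟩ := h
  exact ⟨fun t b => E b t, h2, h1⟩

theorem fin_compl {v l l' : ℕ} (h : Sys (Fin v) l) (hl : l + l' = v + 2) : Sys (Fin v) l' :=
  h.compl (by rw [Fintype.card_fin]; exact hl)

/-- The statement for the pairs `(v, l)` with `l` different from `1` and `v + 1`. -/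
def Ok (v : ℕ) : Prop := ∀ l : ℕ, l ≤ v + 2 → Even (l * (v - 1)) → l ≠ 1 → l ≠ v + 1 → Sys (Fin v) l

theorem even_l {v l : ℕ} (hv : v % 2 = 0) (h0 : v ≠ 0) (h : Even (l * (v - 1))) : Even l := by
  rcases Nat.even_mul.1 h with h1 | h1
  · exact h1
  · exfalso
    rw [Nat.even_iff] at h1
    omega

theorem even_mul_pred {v : ℕ} (hv : v % 2 = 1) (l : ℕ) : Even (l * (v - 1)) := by
  apply Nat.even_mul.2
  right
  rw [Nat.even_iff]
  omega

theorem ok_all (hB : S_B) : ∀ v : ℕ, 1 ≤ v → Ok v := by
  obtain ⟨hB1, hB2, hB3⟩ := hB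
  intro v
  induction v using Nat.strong_induction_on with
  | _ v ih =>
    intro hv l hl hpar h1 h2
    rcases Nat.eq_zero_or_pos l with h0 | hpos
    · exact Sys.empty (Or.inl h0)
    have h4 : v % 4 = 0 ∨ v % 4 = 1 ∨ v % 4 = 2 ∨ v % 4 = 3 := by omega
    rcases h4 with h4 | h4 | h4 | h4
    · -- v = 2 q + 2
      obtain ⟨q, hq⟩ : ∃ q, v = (q + 1) + q + 1 := ⟨v / 2 - 1, by omega⟩
      have hqo : Odd q := by rw [Nat.odd_iff]; omega
      have hle := even_l (by omega) (by omega) hpar
      have dir : ∀ m : ℕ, Even m → 2 ≤ m → m ≤ q + 2 → Sys (Fin v) m := by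
        intro m hm hm2 hmq
        have hm' : m % 2 = 0 := Nat.even_iff.1 hm
        have hqo' : q % 2 = 1 := Nat.odd_iff.1 hqo
        have a1 := ih (q + 1) (by omega) (by omega) m (by omega)
          (Nat.even_mul.2 (Or.inl hm)) (by omega) (by omega)
        have := Sys.step hqo a1 (hB3 q m hm hm2 hmq)
        rwa [← hq] at this
      have hl' : l % 2 = 0 := Nat.even_iff.1 hle
      by_cases hlq : l ≤ q + 2
      · exact dir l hle (by omega) hlq
      · rcases Nat.eq_zero_or_pos (v + 2 - l) with h5 | h5
        · exact fin_compl (l := 0) (Sys.empty (Or.inl rfl)) (by omega)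
        · refine fin_compl (l := v + 2 - l) (dir _ ?_ ?_ ?_) (by omega)
          · rw [Nat.even_iff]; omega
          · omega
          · omega
    · -- v = 2 q + 3
      rcases (show v = 1 ∨ 5 ≤ v by omega) with hv1 | hv5
      · subst hv1
        refine ⟨fun _ _ _ => false, fun _ _ _ => rfl, fun _ _ _ => rfl, fun _ _ => rfl,
          fun x y hxy => absurd (Subsingleton.elim x y) hxy⟩
      obtain ⟨q, hq⟩ : ∃ q, v = (q + 2) + q + 1 := ⟨(v - 3) / 2, by omega⟩
      have hqo : Odd q := by rw [Nat.odd_iff]; omega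
      have hqo' : q % 2 = 1 := Nat.odd_iff.1 hqo
      have dir : ∀ m : ℕ, 2 ≤ m → m ≤ q + 2 → Sys (Fin v) m := by
        intro m hm2 hmq
        have a1 := ih (q + 2) (by omega) (by omega) m (by omega)
          (even_mul_pred (by omega) m) (by omega) (by omega)
        have := Sys.step hqo a1 (hB2 q m hm2 hmq)
        rwa [← hq] at this
      by_cases hlq : l ≤ q + 2
      · exact dir l (by omega) hlq
      · rcases Nat.eq_zero_or_pos (v + 2 - l) with h5 | h5
        · exact fin_compl (l := 0) (Sys.empty (Or.inl rfl)) (by omega)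
        · exact fin_compl (l := v + 2 - l) (dir _ (by omega) (by omega)) (by omega)
    · -- v = 2 q
      have hle := even_l (by omega) (by omega) hpar
      have hl' : l % 2 = 0 := Nat.even_iff.1 hle
      rcases (show v = 2 ∨ 6 ≤ v by omega) with hv1 | hv5
      · exact Sys.empty (by omega)
      obtain ⟨n, hq⟩ : ∃ n, v = n + (n + 1) + 1 := ⟨v / 2 - 1, by omega⟩
      have hqo : Odd (n + 1) := by rw [Nat.odd_iff]; omega
      have hqo' : (n + 1) % 2 = 1 := Nat.odd_iff.1 hqo
      have dir : ∀ m : ℕ, Even m → 2 ≤ m → m ≤ n + 2 → Sys (Fin v) m := by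
        intro m hm hm2 hmq
        have hm' : m % 2 = 0 := Nat.even_iff.1 hm
        have a1 := ih n (by omega) (by omega) m (by omega)
          (Nat.even_mul.2 (Or.inl hm)) (by omega) (by omega)
        have := Sys.step hqo a1 (hB3 n m hm hm2 hmq).symm
        rwa [← hq] at this
      by_cases hlq : l ≤ n + 2
      · exact dir l hle (by omega) hlq
      · rcases Nat.eq_zero_or_pos (v + 2 - l) with h5 | h5
        · exact fin_compl (l := 0) (Sys.empty (Or.inl rfl)) (by omega)
        · refine fin_compl (l := v + 2 - l) (dir _ ?_ ?_ ?_) (by omega)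
          · rw [Nat.even_iff]; omega
          · omega
          · omega
    · -- v = 2 q + 1
      obtain ⟨q, hq⟩ : ∃ q, v = q + q + 1 := ⟨(v - 1) / 2, by omega⟩
      have hqo : Odd q := by rw [Nat.odd_iff]; omega
      have hqo' : q % 2 = 1 := Nat.odd_iff.1 hqo
      have dir : ∀ m : ℕ, 2 ≤ m → m ≤ q + 2 → m ≠ q + 1 → Sys (Fin v) m := by
        intro m hm2 hmq hm1
        have a1 := ih q (by omega) (by omega) m (by omega)
          (even_mul_pred (by omega) m) (by omega) (by omega)
        have := Sys.step hqo a1 (hB1 q m hm2 hmq)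
        rwa [← hq] at this
      by_cases hlq : l ≤ q + 2 ∧ l ≠ q + 1
      · exact dir l (by omega) hlq.1 hlq.2
      · rcases Nat.eq_zero_or_pos (v + 2 - l) with h5 | h5
        · exact fin_compl (l := 0) (Sys.empty (Or.inl rfl)) (by omega)
        · exact fin_compl (l := v + 2 - l) (dir _ (by omega) (by omega) (by omega)) (by omega)

/-! ### Necessary conditions -/

theorem nec_le {v l : ℕ} (hv : 2 ≤ v) (h : Sys (Fin v) l) : l ≤ v + 2 := by
  obtain ⟨t, h1, h2, h3, h4⟩ := h
  have hxy : (⟨0, by omega⟩ : Fin v) ≠ ⟨1, by omega⟩ := by simp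
  obtain ⟨e, he, h5⟩ := h4 _ _ hxy
  set x : Fin v := ⟨0, by omega⟩
  set y : Fin v := ⟨1, by omega⟩
  have h6 : (univ.filter (fun z => t x y z = true)) ⊆ ({x, y} : Finset (Fin v))ᶜ := by
    intro z hz
    simp only [mem_filter, mem_univ, true_and] at hz
    simp only [mem_compl, mem_insert, mem_singleton, not_or]
    constructor
    · rintro rfl
      rw [h2, h3] at hz
      exact absurd hz (by simp)
    · rintro rfl
      rw [h1, h2, h3] at hz
      exact absurd hz (by simp)
  have h7 := card_le_card h6
  rw [card_compl, card_pair hxy, Fintype.card_fin] at h7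
  omega

theorem nec_par {v l : ℕ} (hv : 2 ≤ v) (h : Sys (Fin v) l) : Even (l * (v - 1)) := by
  obtain ⟨t, h1, h2, h3, h4⟩ := h
  set x : Fin v := ⟨0, by omega⟩
  -- the number of the pairs `(y, z)` with `t x y z` is even
  have e1 : ∑ p ∈ (univ : Finset (Fin v × Fin v)).filter (fun p => t x p.1 p.2 = true),
      (1 : ZMod 2) = 0 := by
    refine Finset.sum_involution (fun p _ => (p.2, p.1)) (fun p _ => by decide)
      (fun p hp _ => ?_) (fun p hp => ?_) (fun p _ => rfl)
    · simp only [mem_filter, mem_univ, true_and] at hp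
      intro h
      have : p.1 = p.2 := (congrArg Prod.snd h)
      rw [this, h1, h2, h3] at hp
      exact absurd hp (by simp)
    · simp only [mem_filter, mem_univ, true_and] at hp ⊢
      rw [h2]; exact hp
  rw [Finset.sum_const, nsmul_eq_mul, mul_one] at e1
  have e2 : ((univ : Finset (Fin v × Fin v)).filter (fun p => t x p.1 p.2 = true)).card =
      ∑ y : Fin v, (univ.filter (fun z => t x y z = true)).card := by
    rw [card_filter, Fintype.sum_prod_type]
    refine Finset.sum_congr rfl fun y _ => ?_
    rw [card_filter]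
  have e3 : ∀ y : Fin v, (((univ.filter (fun z => t x y z = true)).card : ℕ) : ZMod 2) =
      if y = x then 0 else (l : ZMod 2) := by
    intro y
    split_ifs with hy
    · subst hy
      have : (univ.filter (fun z => t x x z = true)) = ∅ := by
        ext z; simp [h3]
      rw [this]; simp
    · obtain ⟨e, he, h5⟩ := h4 x y (fun h => hy h.symm)
      rw [← h5]
      push_cast
      have : (2 : ZMod 2) = 0 := by decide
      rw [this]; ring
  rw [e2, Nat.cast_sum, Finset.sum_congr rfl (fun y _ => e3 y)] at e1
  rw [Finset.sum_ite, Finset.sum_const_zero, zero_add, Finset.sum_const, nsmul_eq_mul] at e1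
  have e4 : (univ.filter (fun y : Fin v => ¬ y = x)).card = v - 1 := by
    rw [Finset.filter_not, Finset.filter_eq', if_pos (mem_univ _), ← Finset.compl_eq_univ_sdiff,
      card_compl, card_singleton, Fintype.card_fin]
  rw [e4] at e1
  rw [mul_comm, ← ZMod.natCast_eq_zero_iff_even]
  push_cast
  exact e1

theorem nec_three {v : ℕ} (hv : 2 ≤ v) (h : Sys (Fin v) 1) : v % 6 = 1 ∨ v % 6 = 3 := by
  have hpar := nec_par hv h
  rw [one_mul, Nat.even_iff] at hpar
  obtain ⟨t, h1, h2, h3, h4⟩ := h
  have hd : 3 ∣ v * (v - 1) := by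
    set S := (univ : Finset (Fin v × Fin v × Fin v)).filter (fun p => t p.1 p.2.1 p.2.2 = true)
      with hS
    have hmem : ∀ p : Fin v × Fin v × Fin v, p ∈ S ↔ t p.1 p.2.1 p.2.2 = true := by
      intro p; rw [hS, mem_filter]; exact ⟨fun h => h.2, fun h => ⟨mem_univ _, h⟩⟩
    have c1 : S.card = v * (v - 1) := by
      rw [hS, card_filter, Fintype.sum_prod_type]
      have : ∀ x : Fin v, ∑ p : Fin v × Fin v, (if t x p.1 p.2 = true then 1 else 0) = v - 1 := by
        intro x
        rw [Fintype.sum_prod_type]
        have : ∀ y : Fin v, ∑ z : Fin v, (if t x y z = true then 1 else 0) =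
            if y = x then 0 else 1 := by
          intro y
          rw [← card_filter]
          split_ifs with hy
          · subst hy
            have : (univ.filter (fun z => t y y z = true)) = ∅ := by
              ext z; simp [h3]
            rw [this]; simp
          · obtain ⟨e, he, h5⟩ := h4 x y (fun h => hy h.symm)
            omega
        rw [Finset.sum_congr rfl (fun y _ => this y), Finset.sum_ite, Finset.sum_const_zero,
          zero_add, Finset.sum_const, smul_eq_mul, mul_one, Finset.filter_not,
          Finset.filter_eq', if_pos (mem_univ _), ← Finset.compl_eq_univ_sdiff,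
          card_compl, card_singleton, Fintype.card_fin]
      rw [Finset.sum_congr rfl (fun x _ => this x), Finset.sum_const, smul_eq_mul,
        Finset.card_univ, Fintype.card_fin]
    rw [← c1]
    have hrot : ∀ x y z, t x y z = true → t y z x = true := fun x y z h => by
      rw [h2 y z x, h1 y x z]; exact h
    let f : Function.End S := fun p => ⟨(p.1.2.1, p.1.2.2, p.1.1),
      (hmem _).2 (hrot _ _ _ ((hmem _).1 p.2))⟩
    have hf : f ^ 3 ^ 1 = 1 := by
      rw [pow_one, pow_succ, pow_two]
      rfl
    have h6 := Equiv.Perm.card_fixedPoints_modEq (p := 3) (n := 1) hf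
    have h7 : Fintype.card (Function.fixedPoints f) = 0 := by
      rw [Fintype.card_eq_zero_iff]
      refine ⟨fun p => ?_⟩
      have h8 := p.2
      have h9 : f p.1 = p.1 := h8
      have h10 := congrArg (fun u : S => u.1.1) h9
      have h11 : p.1.1.2.1 = p.1.1.1 := h10
      have h13 := (hmem _).1 p.1.2
      rw [h11, h3] at h13
      exact absurd h13 (by simp)
    rw [h7, Fintype.card_coe] at h6
    exact (Nat.modEq_zero_iff_dvd).1 h6
  have h6 : v % 6 = 1 ∨ v % 6 = 3 ∨ v % 6 = 5 := by omega
  rcases h6 with h6 | h6 | h6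
  · exact Or.inl h6
  · exact Or.inr h6
  · exfalso
    have h7 : v * (v - 1) % 3 = 2 := by
      rw [Nat.mul_mod, show v % 3 = 2 by omega, show (v - 1) % 3 = 1 by omega]
    omega

/-- The result, from the three packages. -/
theorem assembly (hD : S_D) (hK : S_K) (hB : S_B) : S_R := by
  intro v l hv hl
  rw [hD v l]
  constructor
  · intro h
    refine ⟨nec_le hv h, nec_par hv h, ?_⟩
    rintro (h1 | h1)
    · subst h1; exact nec_three hv h
    · exact nec_three hv (fin_compl h (by omega))
  · rintro ⟨h1, h2, h3⟩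
    by_cases h4 : l = 1
    · subst h4; exact hK v (h3 (Or.inl rfl))
    by_cases h5 : l = v + 1
    · exact fin_compl (hK v (h3 (Or.inr h5))) (by omega)
    · exact ok_all hB v (by omega) l h1 h2 h4 h5

end Pool.Agent.U645.VB
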