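import Pool.Agent.U645.VB.Stm

/-!
# Variance-balanced designs: transport, complement, the doubling step
-/

set_option autoImplicit false

open Finset

namespace Pool.Agent.U645.VB

theorem Sys.transport {α β : Type} [Fintype α] [DecidableEq α] [Fintype β] [DecidableEq β] (e : β ≃ α)
    {l : ℕ} (h : Sys α l) : Sys β l := by
  obtain ⟨t, h1, h2, h3, h4⟩ := h
  refine ⟨fun x y z => t (e x) (e y) (e z), fun x y z => h1 _ _ _, fun x y z => h2 _ _ _,
    fun x y => h3 _ _, fun x y hxy => ?_⟩
  obtain ⟨k, hk, h5⟩ := h4 (e x) (e y) (fun h => hxy (e.injective h))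
  refine ⟨k, hk, ?_⟩
  rw [← h5]
  congr 1
  refine Finset.card_bij (fun z _ => e z) (fun z hz => ?_) (fun a _ b _ hab => e.injective hab)
    (fun z hz => ⟨e.symm z, ?_, by simp⟩)
  · simpa using hz
  · simpa using hz

theorem Sys.empty {α : Type} [Fintype α] [DecidableEq α] {l : ℕ} (h : l = 0 ∨ l = 2 ∨ l = 4) :
    Sys α l := by
  refine ⟨fun _ _ _ => false, fun _ _ _ => rfl, fun _ _ _ => rfl, fun _ _ => rfl,
    fun x y _ => ?_⟩
  rcases h with h | h | h
  · exact ⟨0, by omega, by simp [h]⟩
  · exact ⟨1, by omega, by simp [h]⟩
  · exact ⟨2, by omega, by simp [h]⟩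

theorem Sys.compl {α : Type} [Fintype α] [DecidableEq α] {l l' : ℕ} (h : Sys α l)
    (hl : l + l' = Fintype.card α + 2) : Sys α l' := by
  obtain ⟨t, h1, h2, h3, h4⟩ := h
  have h3' : ∀ x y, t x y y = false := fun x y => by rw [h1, h2]; exact h3 y x
  have h3'' : ∀ x y, t x y x = false := fun x y => by rw [h2]; exact h3 x y
  refine ⟨fun x y z => decide (x ≠ y ∧ y ≠ z ∧ x ≠ z) && !(t x y z), fun x y z => ?_,
    fun x y z => ?_, fun x y => by simp, fun x y hxy => ?_⟩
  · beta_reduce
    rw [h1 x y z]
    congr 1
    simp only [decide_eq_decide]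
    constructor
    · rintro ⟨a, b, c⟩; exact ⟨a.symm, c, b⟩
    · rintro ⟨a, b, c⟩; exact ⟨a.symm, c, b⟩
  · beta_reduce
    rw [h2 x y z]
    congr 1
    simp only [decide_eq_decide]
    constructor
    · rintro ⟨a, b, c⟩; exact ⟨c, b.symm, a⟩
    · rintro ⟨a, b, c⟩; exact ⟨c, b.symm, a⟩
  · obtain ⟨k, hk, h5⟩ := h4 x y hxy
    have e1 : (univ.filter (fun z => (decide (x ≠ y ∧ y ≠ z ∧ x ≠ z) && !(t x y z)) = true)).card +
        ((univ.filter (fun z => t x y z = true)).card + 2) = Fintype.card α := by
      have e2 : (univ.filter (fun z => (decide (x ≠ y ∧ y ≠ z ∧ x ≠ z) && !(t x y z)) = true)) =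
          ((univ.filter (fun z => t x y z = true)) ∪ {x, y})ᶜ := by
        ext z
        simp only [mem_filter, mem_univ, true_and, Bool.and_eq_true, decide_eq_true_eq,
          Bool.not_eq_true', mem_compl, mem_union, mem_insert, mem_singleton, not_or]
        constructor
        · rintro ⟨⟨-, a, b⟩, c⟩
          exact ⟨by simp [c], fun h => b h.symm, fun h => a h.symm⟩
        · rintro ⟨a, b, c⟩
          exact ⟨⟨hxy, fun h => c h.symm, fun h => b h.symm⟩, by simpa using a⟩
      have e3 : ((univ.filter (fun z => t x y z = true)) ∪ {x, y}).card =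
          (univ.filter (fun z => t x y z = true)).card + 2 := by
        rw [card_union_of_disjoint, card_pair hxy]
        rw [disjoint_right]
        intro z hz
        simp only [mem_insert, mem_singleton] at hz
        rcases hz with rfl | rfl
        · simp [h3'']
        · simp [h3']
      rw [e2, card_compl, e3]
      have e4 : (univ.filter (fun z => t x y z = true)).card + 2 ≤ Fintype.card α := by
        rw [← e3]; exact card_le_univ _
      omega
    refine ⟨2 - k, by omega, ?_⟩
    beta_reduce
    omega

/-- The colour of the edge `xy` in the standard colouring of the edges of the complete graph on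
`ZMod q` and one more point. -/
def col {q : ℕ} : Option (ZMod q) → Option (ZMod q) → ZMod q
  | none, none => 0
  | none, some x => 2 * x
  | some x, none => 2 * x
  | some x, some y => x + y

theorem col_comm {q : ℕ} (a b : Option (ZMod q)) : col a b = col b a := by
  rcases a with _ | a <;> rcases b with _ | b <;> simp [col, add_comm]

theorem col_card {q : ℕ} [NeZero q] (hq : Odd q) (a : Option (ZMod q)) (P : ZMod q → Bool) :
    (univ.filter (fun y : Option (ZMod q) => a ≠ y ∧ P (col a y) = true)).card =
      (univ.filter (fun t : ZMod q => P t = true)).card := by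
  have h2 : ∃ h : ZMod q, 2 * h = 1 := by
    obtain ⟨m, hm⟩ := hq
    refine ⟨(m + 1 : ℕ), ?_⟩
    have : ((2 * m + 1 : ℕ) : ZMod q) = 0 := by rw [← hm]; exact ZMod.natCast_self q
    push_cast at this ⊢
    linear_combination this
  obtain ⟨h, hh⟩ := h2
  refine Finset.card_bij (fun y _ => col a y) (fun y hy => ?_) (fun y hy z hz hyz => ?_)
    (fun t ht => ?_)
  · simp only [mem_filter, mem_univ, true_and] at hy ⊢
    exact hy.2
  · simp only [mem_filter, mem_univ, true_and] at hy hz
    have hc : ∀ u w : ZMod q, 2 * u = 2 * w → u = w := fun u w huw => by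
      have : h * (2 * u) = h * (2 * w) := by rw [huw]
      linear_combination this + (w - u) * hh
    rcases a with _ | a
    · rcases y with _ | y
      · exact absurd rfl hy.1
      rcases z with _ | z
      · exact absurd rfl hz.1
      simp only [col] at hyz
      rw [hc _ _ hyz]
    · rcases y with _ | y
      · rcases z with _ | z
        · rfl
        · simp only [col] at hyz
          exfalso
          apply hz.1
          congr 1
          linear_combination hyz
      · rcases z with _ | z
        · simp only [col] at hyz
          exfalso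
          apply hy.1
          congr 1
          linear_combination -hyz
        · simp only [col] at hyz
          congr 1
          linear_combination hyz
  · simp only [mem_filter, mem_univ, true_and] at ht
    rcases a with _ | a
    · refine ⟨some (h * t), ?_, ?_⟩
      · refine mem_filter.2 ⟨mem_univ _, by simp, ?_⟩
        show P (2 * (h * t)) = true
        rw [← mul_assoc, hh, one_mul]; exact ht
      · show 2 * (h * t) = t
        rw [← mul_assoc, hh, one_mul]
    · by_cases ha : t = 2 * a
      · refine ⟨none, ?_, ?_⟩
        · refine mem_filter.2 ⟨mem_univ _, by simp, ?_⟩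
          show P (2 * a) = true
          rw [← ha]; exact ht
        · exact ha.symm
      · refine ⟨some (t - a), ?_, ?_⟩
        · refine mem_filter.2 ⟨mem_univ _, ?_, ?_⟩
          · intro h3
            apply ha
            have := Option.some.inj h3
            linear_combination -this
          · show P (a + (t - a)) = true
            rw [add_sub_cancel]; exact ht
        · show a + (t - a) = t
          rw [add_sub_cancel]

/-- The doubled system. -/
def dbl {p q : ℕ} (t : Fin p → Fin p → Fin p → Bool) (F : Fin p → ZMod q → Bool) :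
    (Fin p ⊕ Option (ZMod q)) → (Fin p ⊕ Option (ZMod q)) → (Fin p ⊕ Option (ZMod q)) → Bool
  | Sum.inl a, Sum.inl b, Sum.inl c => t a b c
  | Sum.inl a, Sum.inr x, Sum.inr y => decide (x ≠ y) && F a (col x y)
  | Sum.inr x, Sum.inl a, Sum.inr y => decide (x ≠ y) && F a (col x y)
  | Sum.inr x, Sum.inr y, Sum.inl a => decide (x ≠ y) && F a (col x y)
  | _, _, _ => false

theorem card_sum_filter {α β : Type} [Fintype α] [Fintype β] (P : α ⊕ β → Bool) :
    (univ.filter (fun z => P z = true)).card = (univ.filter (fun a => P (Sum.inl a) = true)).card +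
      (univ.filter (fun b => P (Sum.inr b) = true)).card := by
  rw [Finset.card_filter, Finset.card_filter, Finset.card_filter, Fintype.sum_sum_type]

theorem Sys.step {p q l : ℕ} (hq : Odd q) (h : Sys (Fin p) l) (hB : Bip p q l) :
    Sys (Fin (p + q + 1)) l := by
  haveI : NeZero q := ⟨by rintro rfl; exact absurd hq (by decide)⟩
  obtain ⟨t, h1, h2, h3, h4⟩ := h
  obtain ⟨E, h5, h6⟩ := hB
  have eq : ZMod q ≃ Fin q := Fintype.equivFinOfCardEq (ZMod.card q)
  set F : Fin p → ZMod q → Bool := fun a s => E a (eq s) with hF
  have hF5 : ∀ b, (univ.filter (fun s => F b s = true)).card =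
      (univ.filter (fun s => E b s = true)).card := fun b =>
    Finset.card_bij (fun s _ => eq s) (fun s hs => by simpa [hF] using hs)
      (fun a _ b _ hab => eq.injective hab) (fun s hs => ⟨eq.symm s, by simpa [hF] using hs, by simp⟩)
  have key : Sys (Fin p ⊕ Option (ZMod q)) l := by
    refine ⟨dbl t F, ?_, ?_, ?_, ?_⟩
    · rintro (a | x) (b | y) (c | z) <;> simp only [dbl]
      · exact h1 _ _ _
      · rw [col_comm]; congr 1; simp only [decide_eq_decide]; exact ne_comm
    · rintro (a | x) (b | y) (c | z) <;> simp only [dbl]
      · exact h2 _ _ _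
      · rw [col_comm]; congr 1; simp only [decide_eq_decide]; exact ne_comm
    · rintro (a | x) (b | y) <;> simp [dbl, h3]
    · rintro (a | x) (b | y) hxy
      · obtain ⟨e, he, h7⟩ := h4 a b (fun h => hxy (by rw [h]))
        refine ⟨e, he, ?_⟩
        rw [card_sum_filter]
        simp only [dbl, Bool.false_eq_true, filter_false, card_empty, add_zero]
        exact h7
      · obtain ⟨e, he, h7⟩ := h5 a
        refine ⟨e, he, ?_⟩
        rw [card_sum_filter]
        simp only [dbl, Bool.false_eq_true, filter_false, card_empty, zero_add, Bool.and_eq_true,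
          decide_eq_true_eq]
        rw [col_card hq y (F a), hF5]
        exact h7
      · obtain ⟨e, he, h7⟩ := h5 b
        refine ⟨e, he, ?_⟩
        rw [card_sum_filter]
        simp only [dbl, Bool.false_eq_true, filter_false, card_empty, zero_add, Bool.and_eq_true,
          decide_eq_true_eq]
        rw [col_card hq x (F b), hF5]
        exact h7
      · have hne : x ≠ y := fun h => hxy (by rw [h])
        obtain ⟨e, he, h7⟩ := h6 (eq (col x y))
        refine ⟨e, he, ?_⟩
        rw [card_sum_filter]
        simp only [dbl, Bool.false_eq_true, filter_false, card_empty, add_zero, Bool.and_eq_true,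
          decide_eq_true_eq]
        rw [← h7]
        congr 2
        ext b
        simp [hne, hF]
  refine Sys.transport ?_ key
  refine Fintype.equivOfCardEq ?_
  simp [ZMod.card]
  omega

end Pool.Agent.U645.VB
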